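import Pool.Agent.helper9.T1N.NEE
import Pool.Agent.helper21.T1N.NFJ
import Pool.Agent.helper53.T1N.NL2
import Pool.Agent.helper2.T1N.NSB
import Pool.Agent.helper79.T1N.NLS
import Pool.Agent.helper34.T1N.NHS
import Pool.Agent.helper27.T1N.NCT
import Pool.Agent.helper26.T1N.NQC
import Pool.Agent.helper87.T1N.NTY
import Pool.Agent.helper77.T1N.NMX
import Pool.Agent.helper26.T1N.NLC
import Pool.Agent.helper31.T1N.NBC
import Pool.Agent.helper26.T1N.NBQ

/-!
# Project T1, block N: assembly (no hypothesis)
-/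

set_option autoImplicit false

namespace Pool.Agent.T1N

theorem NL2_all : NL2_stmt := NL2_proof NFJ_proof NEE_proof

theorem NLS_all : NLS_stmt := NLS_proof NL2_all (NSB_proof NEE_proof) NEE_proof

theorem NQC_all : NQC_stmt := NQC_proof NHS_proof NCT_proof

theorem NLC_all : NLC_stmt := NLC_proof NLS_all NQC_all NTY_proof NMX_proof NEE_proof

theorem NBC_all : NBC_stmt := NBC_proof NLC_all NEE_proof

theorem NBQ_all : NBQ_stmt := NBQ_proof NBC_all

end Pool.Agent.T1N
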