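import Mathlib

/-!
# Project T1 (MP_07c750_an), block N: the FOURTH MOMENT of exponential sums with Moebius phases, rows `t1:NXX`

PURE real analysis, independent of every other block (imports only Mathlib).

OUTPUT (rows NBC, NBQ): let `U ⊂ [-2, 2]` be finite and `1/N`-separated, `E(t, X) = ∑_(u ∈ U) e(t u/(1 - X u))`. The number of cells of length `1/N` of `[-1/4, 1/4]` which contain an `X` with `|E(t, X)| ≥ θ |U|` for some `t`, `L ≤ |t| ≤ N`, is `≤ C θ^(-5) (N/|U|)³ N L^(-1/2) (1 + log N)`.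

RULES. Row `t1:NXX`: file `Pool/Agent/<seat>/T1N/NXX.lean`, `import Pool.Agent.helper1.T1N.SpecN`, `set_option autoImplicit false`, namespace `Pool.Agent.T1N`, auxiliary lemmas prefixed `NXX_`, theorem `NXX_proof (h..) : NXX_stmt` (rows listed in `from` may be used as hypotheses `(h : NYY_stmt)`; more may be added).
No `convert`, `congr!`, `native_decide`, no double quotes, no `private`, no command starting with a sharp sign.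
-/

set_option autoImplicit false

open MeasureTheory Finset

namespace Pool.Agent.T1N

noncomputable section

/-! ## Definitions -/

/-- `e(x) = exp(2πix)` -/
def ee (x : ℝ) : ℂ := Complex.exp (((2 * Real.pi * x : ℝ) : ℂ) * Complex.I)

/-- the exponential sum with Moebius phases -/
def EE (U : Finset ℝ) (t X : ℝ) : ℂ := ∑ u ∈ U, ee (t * (u / (1 - X * u)))

/-- separated sets -/
def Sep (δ : ℝ) (A : Finset ℝ) : Prop := ∀ x ∈ A, ∀ y ∈ A, x ≠ y → δ ≤ |x - y|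

/-- two-dimensional exponential sums -/
def F2 {ι : Type} (s : Finset ι) (c : ι → ℂ) (x y : ι → ℝ) (t η : ℝ) : ℂ := ∑ k ∈ s, c k * ee (t * x k + η * y k)

open Classical in
/-- the number of close pairs of frequencies -/
def Cl {ι : Type} (s : Finset ι) (x y : ι → ℝ) (T H : ℝ) : ℕ := ((s ×ˢ s).filter fun k => |x k.1 - x k.2| ≤ 1 / T ∧ |y k.1 - y k.2| ≤ 1 / H).card

/-! ## Rows -/

/-- **Row NEE** (short). `‖exp (i a) - exp (i b)‖ ≤ |a - b|` (`Complex.norm_exp_I_mul_ofReal_sub_one_le` or the mean value inequality); the sum `E(t, X)` is even up to conjugation. -/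
def NEE_stmt : Prop := (∀ x : ℝ, ‖ee x‖ = 1) ∧ (∀ x y : ℝ, ee (x + y) = ee x * ee y) ∧ (∀ x : ℝ, (starRingEnd ℂ) (ee x) = ee (-x)) ∧ (∀ x y : ℝ, ‖ee x - ee y‖ ≤ 2 * Real.pi * |x - y|) ∧ Continuous ee ∧
  (∀ (U : Finset ℝ) (t X : ℝ), ‖EE U (-t) X‖ = ‖EE U t X‖) ∧
  ∀ (ι : Type) (s : Finset ι) (c : ι → ℂ) (x y : ι → ℝ), Continuous fun p : ℝ × ℝ => F2 s c x y p.1 p.2

/-- **Row NFJ** (THE FEJER MAJORANT; short-medium). `Λ(x) = max 0 (1 - |x|)`; `∫ Λ(x) e(-x t) dx = 2 ∫_0^1 (1 - x) cos (2 π x t) dx = (sin (π t)/(π t))² =: F(t)` (integration by parts; `F 0 = 1`), `0 ≤ F ≤ min 1 (1/(π t)²)` is integrable, so Fourier inversion (`MeasureTheory.Integrable.fourierInv_fourier_eq` or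
`Continuous.fourierInv_fourier_eq`, `Λ` continuous and integrable) gives `∫ F(t) e(x t) dt = Λ(x)`. `w t = (π²/4) F(t/2)`: for `|t| ≤ 1`, `sin (π t/2)/(π t/2) ≥ 2/π` (`Real.mul_le_sin`), and `∫ w(t) e(x t) dt = (π²/2) Λ(2 x)`. -/
def NFJ_stmt : Prop := ∃ (w : ℝ → ℝ) (C : ℝ), 1 ≤ C ∧ Continuous w ∧ Integrable w ∧ (∀ t, 0 ≤ w t) ∧ (∀ t, |t| ≤ 1 → 1 ≤ w t) ∧ (∀ x : ℝ, ‖∫ t, (w t : ℂ) * ee (x * t)‖ ≤ C) ∧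
  ∀ x : ℝ, 1 ≤ |x| → ∫ t, (w t : ℂ) * ee (x * t) = 0

/-- **Row NL2** (LARGE SIEVE, INTEGRAL FORM; short-medium; from NFJ, NEE). `1 ≤ w(t/T) w(η/H)` on the rectangle, `≥ 0` elsewhere; `|F2|² = ∑_(k, k') c_k conj c_k' e(t (x_k - x_k') + η (y_k - y_k'))`; the double integral over `ℝ²` is the product `T ŵ(T (x_k - x_k')) H ŵ(H (y_k - y_k'))` (`integral_prod_mul` or iterated integrals; substitution),
zero unless `|x_k - x_k'| < 1/T` and `|y_k - y_k'| < 1/H`. The constant is `C²`. -/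
def NL2_stmt : Prop := ∃ C : ℝ, 1 ≤ C ∧ ∀ (ι : Type) (s : Finset ι) (c : ι → ℂ) (x y : ι → ℝ) (T H : ℝ), (∀ k ∈ s, ‖c k‖ ≤ 1) → 0 < T → 0 < H →
  ∫ p in Set.Icc (-T) T ×ˢ Set.Icc (-H) H, ‖F2 s c x y p.1 p.2‖ ^ 2 ≤ C * T * H * (Cl s x y T H : ℝ)

/-- **Row NSB** (LOCAL AVERAGES; short-medium; from NEE). `h = 1/(4 B)`, `g(x) = (2 h)⁻¹ ∫_(-h)^h e(s x) ds = sin (2 π h x)/(2 π h x)` (real, `g 0 = 1`) `≥ 2/π` for `|x| ≤ B` (`|2 π h x| ≤ π/2`, Jordan). `c'_k = c_k/(g(x_k) g(y_k))`, `(π/2)² ≤ 3`. Expand the right side: the integral of `e(t x + η y)` over the box centred at `(t0, η0)` is `e(t0 x + η0 y) (2 h)² g(x) g(y)`. -/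
def NSB_stmt : Prop := ∀ (B : ℝ), 1 ≤ B → ∀ (ι : Type) (s : Finset ι) (c : ι → ℂ) (x y : ι → ℝ), (∀ k ∈ s, |x k| ≤ B ∧ |y k| ≤ B) → ∃ c' : ι → ℂ, (∀ k ∈ s, ‖c' k‖ ≤ 3 * ‖c k‖) ∧
  ∀ t0 η0 : ℝ, F2 s c x y t0 η0 = ((4 * B ^ 2 : ℝ) : ℂ) * ∫ p in Set.Icc (t0 - 1 / (4 * B)) (t0 + 1 / (4 * B)) ×ˢ Set.Icc (η0 - 1 / (4 * B)) (η0 + 1 / (4 * B)), F2 s c' x y p.1 p.2

/-- **Row NLS** (LARGE SIEVE, DISCRETE FORM; short-medium; from NL2, NSB, NEE). The boxes `Q_r` of half side `h = 1/(4 B) ≤ 1/4` around the points `r ∈ R` are disjoint and contained in `[-2T, 2T] × [-2H, 2H]`; `|F2(r)|² ≤ 4 B² ∫_(Q_r) |F2'|²` (Cauchy-Schwarz, area of `Q_r` = `1/(4 B²)`); sum over `r`; NL2 for `c'/3` and `2T, 2H`; `Cl (2T) (2H) ≤ Cl T H`. -/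
def NLS_stmt : Prop := ∀ (B : ℝ), 1 ≤ B → ∃ C : ℝ, 1 ≤ C ∧ ∀ (ι : Type) (s : Finset ι) (c : ι → ℂ) (x y : ι → ℝ) (T H : ℝ) (R : Finset (ℝ × ℝ)), (∀ k ∈ s, ‖c k‖ ≤ 1) → (∀ k ∈ s, |x k| ≤ B ∧ |y k| ≤ B) → 1 ≤ T → 1 ≤ H →
  (∀ r ∈ R, |r.1| ≤ T ∧ |r.2| ≤ H) → (∀ r ∈ R, ∀ r' ∈ R, r ≠ r' → 1 ≤ |r.1 - r'.1| ∨ 1 ≤ |r.2 - r'.2|) → ∑ r ∈ R, ‖F2 s c x y r.1 r.2‖ ^ 2 ≤ C * T * H * (Cl s x y T H : ℝ)

/-- **Row NHS** (HARMONIC SUMS; short-medium). The `j`-th point of `S` to the right of `a` is at distance `≥ j δ`, and there are `≤ 8/δ` of them (order the points, `Finset.orderEmbOfFin`, or group by `⌊|s - a|/δ⌋ = j ≥ 1`: at most 2 points for each `j`, `1/|s - a| ≤ 1/(j δ)`); `∑_(j ≤ n) 1/j ≤ 1 + log n` (`harmonic_le_one_add_log`). -/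
def NHS_stmt : Prop := ∃ C : ℝ, 1 ≤ C ∧ ∀ (δ : ℝ) (S : Finset ℝ) (a : ℝ), 0 < δ → δ ≤ 1 → (∀ s ∈ S, |s| ≤ 4) → Sep δ S → |a| ≤ 4 → ∑ s ∈ S.filter (fun s => δ ≤ |s - a|), 1 / |s - a| ≤ C / δ * (1 + Real.log (1 / δ))

open Classical in
/-- **Row NCT** (COUNTING PAIRS; short-medium). The map `(s, s') ↦ (⌊(s + s')/δ⌋, ⌊(s - s')/δ⌋)` is injective on `S × S` (on a fibre `s` is in a half open interval of length `δ`, so is `s'`), its image has at most `(2 α/δ + 2) (2 β/δ + 2)` elements. -/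
def NCT_stmt : Prop := ∀ (δ α β a b : ℝ) (S : Finset ℝ), 0 < δ → 0 ≤ α → 0 ≤ β → Sep δ S →
  (((S ×ˢ S).filter fun q => |q.1 + q.2 - a| ≤ α ∧ |q.1 - q.2 - b| ≤ β).card : ℝ) ≤ 4 * (1 + α / δ) * (1 + β / δ)

/-- **Row NQC** (QUADRUPLES; medium; from NHS, NCT). `x k = k.1 + k.2`, `y k = k.1² + k.2²`. Fix `(s1, s2)`, `D = |s1 - s2|`. `(s3 - s4)² - (s1 - s2)² = 2 (s3² + s4² - s1² - s2²) - (s3 + s4 - s1 - s2)(s3 + s4 + s1 + s2)`, absolute value `≤ 2/H + 16/T ≤ 18/H`. If `D > 0` then `||s3 - s4| - D| ≤ 18/(H D)`, if `D = 0` then `|s3 - s4| ≤ 5/√H`;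
`|s3 + s4 - (s1 + s2)| ≤ 1/T`. NCT with `δ = 1/(4N)`, `α = 1/T`, `b = ± D`: at most `8 (1 + 4N/T)(1 + 72 N/(H D)) ≤ C (N/T) N/(H D)` resp. `C (N/T) N/√H ≤ C (N/T) N²/H` pairs. Sum over `s2 ≠ s1` (NHS): `≤ C (N/T)(N/H) N (1 + log N)`, and over `s1`. -/
def NQC_stmt : Prop := ∃ C : ℝ, 1 ≤ C ∧ ∀ (N T H : ℝ) (S : Finset ℝ), 1 ≤ H → H ≤ T → T ≤ N → (∀ s ∈ S, |s| ≤ 4) → Sep (1 / (4 * N)) S →
  (Cl (S ×ˢ S) (fun k : ℝ × ℝ => k.1 + k.2) (fun k : ℝ × ℝ => k.1 ^ 2 + k.2 ^ 2) T H : ℝ) ≤ C * S.card * (N ^ 3 / (T * H)) * (1 + Real.log N)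

/-- **Row NTY** (TAYLOR, ALGEBRA; short). With `a = 1 - X0 u`, `b = 1 - X u = a - ξ u` (both in `[1/2, 3/2]`): `u/b - u/a - ξ u²/a² = ξ² u³/(a² b)`. Distances: `u/a - u'/a' = (u - u')/(a a')`. -/
def NTY_stmt : Prop := ∀ X0 : ℝ, |X0| ≤ 1 / 4 → (∀ u : ℝ, |u| ≤ 2 → |u / (1 - X0 * u)| ≤ 4 ∧ ∀ ξ : ℝ, |X0 + ξ| ≤ 1 / 4 → |u / (1 - (X0 + ξ) * u) - u / (1 - X0 * u) - ξ * (u / (1 - X0 * u)) ^ 2| ≤ 64 * ξ ^ 2) ∧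
  ∀ u u' : ℝ, |u| ≤ 2 → |u'| ≤ 2 → |u - u'| / 4 ≤ |u / (1 - X0 * u) - u' / (1 - X0 * u')|

/-- **Row NMX** (MAXIMAL SEPARATED SUBSETS; short). A maximal subset `R` of `A` with `f` separated on `R` (`Finset.exists_maximal` for the subsets of `A`, or induction). -/
def NMX_stmt : Prop := ∀ (A : Finset ℝ) (f : ℝ → ℝ × ℝ), ∃ R ⊆ A, (∀ x ∈ R, ∀ y ∈ R, x ≠ y → 1 ≤ |(f x).1 - (f y).1| ∨ 1 ≤ |(f x).2 - (f y).2|) ∧ ∀ x ∈ A, ∃ y ∈ R, |(f x).1 - (f y).1| < 1 ∧ |(f x).2 - (f y).2| < 1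

/-- **Row NLC** (ONE SHORT INTERVAL OF `X`, `t ~ T`; medium; from NLS, NQC, NTY, NMX, NEE). `S` = image of `U` under `u ↦ s = u/(1 - X0 u)` (injective, `S ⊂ [-4, 4]` is `1/(4N)`-separated: NTY). For `X = X0 + ξ ∈ A` with its `t`: the error of the phase is `≤ |t| 64 ξ² ≤ 2T·64·(θ/T)/10⁴`, so (NEE, NTY) `|∑_(s ∈ S) e(t s + t ξ s²)| ≥ (θ - 2π·128/10⁴ θ)|U| ≥ (θ/2) |U|`,
and its square is `F2 (S × S) 1 (s1 + s2) (s1² + s2²)` at the point `f X = (t, t ξ)`, `|t| ≤ 2T`, `|t ξ| ≤ √T =: H` (`1 ≤ H ≤ T`). NMX: `R ⊂ A` with `f R` separated; NLS (`B = 32`, `2T`, `H`; `Cl (2T) H ≤ Cl T H`) and NQC: `|R| (θ/2)⁴ |U|⁴ ≤ C 2T H · C |U| N³/(T H) (1 + log N)`, so `|R| ≤ C θ^(-4) (N/|U|)³ (1 + log N)`.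
Every `X ∈ A` has `X' ∈ R` with `|t - t'| < 1`, `|t ξ - t' ξ'| < 1`, so `|ξ - ξ'| ≤ (1 + |ξ'|)/t ≤ 2/T`: at most `4N/T + 1 ≤ 5N/T` points `X ∈ A` for each `X'` (`A` is `1/N`-separated). -/
def NLC_stmt : Prop := ∃ C : ℝ, 1 ≤ C ∧ ∀ (N T θ X0 : ℝ) (U A : Finset ℝ), 1 ≤ T → T ≤ N → 0 < θ → θ ≤ 1 → U.Nonempty → (∀ u ∈ U, |u| ≤ 2) → Sep (1 / N) U → |X0| ≤ 1 / 4 → (∀ X ∈ A, |X| ≤ 1 / 4 ∧ |X - X0| ≤ Real.sqrt (θ / T) / 100) → Sep (1 / N) A →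
  (∀ X ∈ A, ∃ t : ℝ, T ≤ t ∧ t ≤ 2 * T ∧ θ * U.card ≤ ‖EE U t X‖) → (A.card : ℝ) ≤ C * (N / T) * (θ ^ 4)⁻¹ * (N / U.card) ^ 3 * (1 + Real.log N)

/-- **Row NBC** (THE FOURTH MOMENT; medium; from NLC, NEE). By NEE `t > 0`. `T_j = 2^j L ≤ N`, `A_j = {X ∈ A, T_j ≤ t_X ≤ 2 T_j}`; cover `[-1/4, 1/4]` by `≤ 60 √(T_j/θ)` intervals `[X0, X0 + √(θ/T_j)/100]` with `X0 ∈ [-1/4, 1/4]`. NLC for each: `|A_j| ≤ 60 √(T_j/θ) C (N/T_j) θ^(-4) (N/|U|)³ (1 + log N)`; `∑_j T_j^(-1/2) ≤ 4 L^(-1/2)`; `θ^(-9/2) ≤ θ^(-5)`. -/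
def NBC_stmt : Prop := ∃ C : ℝ, 1 ≤ C ∧ ∀ (N L θ : ℝ) (U A : Finset ℝ), 1 ≤ L → L ≤ N → 0 < θ → θ ≤ 1 → U.Nonempty → (∀ u ∈ U, |u| ≤ 2) → Sep (1 / N) U → (∀ X ∈ A, |X| ≤ 1 / 4) → Sep (1 / N) A →
  (∀ X ∈ A, ∃ t : ℝ, L ≤ |t| ∧ |t| ≤ N ∧ θ * U.card ≤ ‖EE U t X‖) → (A.card : ℝ) ≤ C * (θ ^ 5)⁻¹ * (N / U.card) ^ 3 * (N / Real.sqrt L) * (1 + Real.log N)

/-- **Row NBQ** (FINAL OUTPUT, CELLS; short; from NBC). Choose one bad `X_m` in every cell `m ∈ M`; the points of the cells with even `m` are `1/N`-separated, so are those with odd `m`. -/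
def NBQ_stmt : Prop := ∃ C : ℝ, 1 ≤ C ∧ ∀ (N L θ : ℝ) (U : Finset ℝ) (M : Finset ℤ), 1 ≤ L → L ≤ N → 0 < θ → θ ≤ 1 → U.Nonempty → (∀ u ∈ U, |u| ≤ 2) → Sep (1 / N) U →
  (∀ m ∈ M, ∃ X t : ℝ, (m : ℝ) ≤ N * X ∧ N * X < m + 1 ∧ |X| ≤ 1 / 4 ∧ L ≤ |t| ∧ |t| ≤ N ∧ θ * U.card ≤ ‖EE U t X‖) → (M.card : ℝ) ≤ C * (θ ^ 5)⁻¹ * (N / U.card) ^ 3 * (N / Real.sqrt L) * (1 + Real.log N)

end

end Pool.Agent.T1N
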