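import Pool.Agent.helper1.T1N.SpecN
import Pool.Agent.helper52.T1.SpecS

/-!
# Project T1 (MP_07c750_an), block N, part 2: the general form of NLC and helper52's row BDX

Rules as in `Pool/Agent/helper1/T1N/SpecN.lean`; `import Pool.Agent.helper1.T1N.SpecN2`.
-/

set_option autoImplicit false

open MeasureTheory Finset

namespace Pool.Agent.T1N

noncomputable section

/-- **Row NLG** (NLC WITH A GENERAL SEPARATION `σ` OF `A`; medium; from NLS, NQC, NTY, NMX, NEE). The proof is that of NLC word by word; only the last line changes: all `X ∈ A` with `|ξ - ξ'| ≤ 2/T` lie in an interval of length `4/T`, there are at most `4/(σ T) + 1` of them. (NLC is the case `σ = 1/N`: `1 + 1/(σT) ≤ 2N/T`.) -/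
def NLG_stmt : Prop := ∃ C : ℝ, 1 ≤ C ∧ ∀ (N T θ X0 σ : ℝ) (U A : Finset ℝ), 1 ≤ T → T ≤ N → 0 < θ → θ ≤ 1 → 0 < σ → U.Nonempty → (∀ u ∈ U, |u| ≤ 2) → Sep (1 / N) U → |X0| ≤ 1 / 4 → (∀ X ∈ A, |X| ≤ 1 / 4 ∧ |X - X0| ≤ Real.sqrt (θ / T) / 100) → Sep σ A →
  (∀ X ∈ A, ∃ t : ℝ, T ≤ t ∧ t ≤ 2 * T ∧ θ * U.card ≤ ‖EE U t X‖) → (A.card : ℝ) ≤ C * (1 + 1 / (σ * T)) * (θ ^ 4)⁻¹ * (N / U.card) ^ 3 * (1 + Real.log N)

/-- **Row NDX** (helper52's row BDX; medium; from NLG, NEE). `S` = helper52's set, `1/T`-separated, `|x| ≤ 1/20`. If `U` is empty or `#U < G` there is no such `x` (`‖EU‖ ≤ #U`), `S = ∅`. Otherwise `θ = G/#U ≤ 1`, `V` = image of `U` under `k ↦ k/N` (injective, `1/N`-, so `1/(4N)`-separated, `|k/N| ≤ 2`), `EU N U t x = EE V t x` (`RS.e1`/`e1` of helper52 is `ee`), by NEE `t > 0`.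
Cover `[-1/20, 1/20]` by at most `11 √(T/θ)` intervals `|X - X0| ≤ √(θ/T)/100` (`1/10` divided by `√(θ/T)/100` is `10 √(T/θ) ≥ 10`). NLG with `4N` for `N`, `σ = 1/T`: `#S ≤ 11 √(T/θ) 2C θ^(-4) (4N/#U)³ (1 + log (4N))`; `θ^(-9/2) ≤ θ^(-5) = #U⁵/G⁵` and `1 + log (4N) ≤ 4 log (2 + N)`. -/
def NDX_stmt : Prop := Pool.Agent.T1.BDX_stmt

end

end Pool.Agent.T1N
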